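import Pool.Agent.Helper58_RL.PolSt
import Pool.Agent.Helper5_RF.Diffeo
import Pool.Agent.Helper36_RF.ClBr

/-!
# PolA: Ricci tensor of a metric which is diagonal in polar coordinates (helper36)
-/

noncomputable section

open scoped ContDiff Topology RealInnerProductSpace
set_option maxSynthPendingDepth 3
open Set

namespace Pool.Agent.RLim.H36

open Pool.Agent.RF Pool.Agent.SecondKind Pool.Agent.RLim.H58

/-- the coordinate as a continuous linear form -/
def pr (i : Fin 4) : E4 →L[ℝ] ℝ := EuclideanSpace.proj i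

@[simp] theorem pr_apply (i : Fin 4) (x : E4) : pr i x = x i := rfl

theorem hpr (i : Fin 4) (y : E4) : HasFDerivAt (fun z : E4 => z i) (pr i) y :=
  (pr i).hasFDerivAt

theorem psi_contDiff : ContDiff ℝ ∞ psi := by
  rw [contDiff_euclidean]
  have h : ∀ i, ContDiff ℝ ∞ (fun z : E4 => z i) := fun i => (pr i).contDiff
  intro i
  fin_cases i
  · exact ((h 0).exp).mul (((h 1).cos).mul ((h 2).cos))
  · exact ((h 0).exp).mul (((h 1).cos).mul ((h 2).sin))
  · exact ((h 0).exp).mul (((h 1).sin).mul ((h 3).cos))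
  · exact ((h 0).exp).mul (((h 1).sin).mul ((h 3).sin))

theorem fderiv_psi (y v : E4) : fderiv ℝ psi y v = dpsi y v := by
  have hd : HasFDerivAt psi (fderiv ℝ psi y) y :=
    (psi_contDiff.differentiable (by simp)).differentiableAt.hasFDerivAt
  have key : ∀ (i : Fin 4), (fderiv ℝ psi y v) i = fderiv ℝ (fun z => psi z i) y v := by
    intro i
    have h1 : HasFDerivAt (fun z => psi z i) ((pr i).comp (fderiv ℝ psi y)) y :=
      (pr i).hasFDerivAt.comp y hd
    rw [h1.fderiv]
    rfl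
  ext i
  rw [key]
  fin_cases i
  · have h1 := ((hpr 0 y).exp).mul (((hpr 1 y).cos).mul ((hpr 2 y).cos))
    have h2 : fderiv ℝ (fun z : E4 => Real.exp (z 0) * (Real.cos (z 1) * Real.cos (z 2))) y = _ := h1.fderiv
    change fderiv ℝ (fun z : E4 => Real.exp (z 0) * (Real.cos (z 1) * Real.cos (z 2))) y v = _
    rw [h2]
    simp [dpsi]
    ring
  · have h1 := ((hpr 0 y).exp).mul (((hpr 1 y).cos).mul ((hpr 2 y).sin))
    have h2 : fderiv ℝ (fun z : E4 => Real.exp (z 0) * (Real.cos (z 1) * Real.sin (z 2))) y = _ := h1.fderiv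
    change fderiv ℝ (fun z : E4 => Real.exp (z 0) * (Real.cos (z 1) * Real.sin (z 2))) y v = _
    rw [h2]
    simp [dpsi]
    ring
  · have h1 := ((hpr 0 y).exp).mul (((hpr 1 y).sin).mul ((hpr 3 y).cos))
    have h2 : fderiv ℝ (fun z : E4 => Real.exp (z 0) * (Real.sin (z 1) * Real.cos (z 3))) y = _ := h1.fderiv
    change fderiv ℝ (fun z : E4 => Real.exp (z 0) * (Real.sin (z 1) * Real.cos (z 3))) y v = _
    rw [h2]
    simp [dpsi]
    ring
  · have h1 := ((hpr 0 y).exp).mul (((hpr 1 y).sin).mul ((hpr 3 y).sin))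
    have h2 : fderiv ℝ (fun z : E4 => Real.exp (z 0) * (Real.sin (z 1) * Real.sin (z 3))) y = _ := h1.fderiv
    change fderiv ℝ (fun z : E4 => Real.exp (z 0) * (Real.sin (z 1) * Real.sin (z 3))) y v = _
    rw [h2]
    simp [dpsi]
    ring

theorem psi_ne (y : E4) : psi y ≠ 0 := by
  intro h
  have e : ∀ i, psi y i = 0 := fun i => by rw [h]; rfl
  have e0 := e 0
  have e1 := e 1
  have e2 := e 2
  have e3 := e 3
  simp only [psi, PiLp.toLp_apply, Matrix.cons_val] at e0 e1 e2 e3
  have hp := Real.exp_pos (y 0)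
  have s0 : Real.cos (y 1) * Real.cos (y 2) = 0 := (mul_eq_zero.1 e0).resolve_left hp.ne'
  have s1 : Real.cos (y 1) * Real.sin (y 2) = 0 := (mul_eq_zero.1 e1).resolve_left hp.ne'
  have s2 : Real.sin (y 1) * Real.cos (y 3) = 0 := (mul_eq_zero.1 e2).resolve_left hp.ne'
  have s3 : Real.sin (y 1) * Real.sin (y 3) = 0 := (mul_eq_zero.1 e3).resolve_left hp.ne'
  have c1 := Real.sin_sq_add_cos_sq (y 1)
  have c2 := Real.sin_sq_add_cos_sq (y 2)
  have c3 := Real.sin_sq_add_cos_sq (y 3)
  have : (1 : ℝ) = 0 := by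
    linear_combination -c1 - Real.cos (y 1) ^ 2 * c2 - Real.sin (y 1) ^ 2 * c3 +
      Real.cos (y 1) * Real.cos (y 2) * s0 + Real.cos (y 1) * Real.sin (y 2) * s1 +
      Real.sin (y 1) * Real.cos (y 3) * s2 + Real.sin (y 1) * Real.sin (y 3) * s3
  exact one_ne_zero this

theorem dpsi_inj {y : E4} (h1 : 0 < y 1) (h2 : y 1 < Real.pi / 2) {v : E4} (hv : dpsi y v = 0) :
    v = 0 := by
  have e : ∀ i, dpsi y v i = 0 := fun i => by rw [hv]; rfl
  have e0 := e 0
  have e1 := e 1
  have e2 := e 2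
  have e3 := e 3
  simp only [dpsi, PiLp.toLp_apply, Matrix.cons_val] at e0 e1 e2 e3
  have hp := Real.exp_pos (y 0)
  replace e0 := (mul_eq_zero.1 e0).resolve_left hp.ne'
  replace e1 := (mul_eq_zero.1 e1).resolve_left hp.ne'
  replace e2 := (mul_eq_zero.1 e2).resolve_left hp.ne'
  replace e3 := (mul_eq_zero.1 e3).resolve_left hp.ne'
  have hc : 0 < Real.cos (y 1) := Real.cos_pos_of_mem_Ioo ⟨by linarith, h2⟩
  have hs : 0 < Real.sin (y 1) := Real.sin_pos_of_pos_of_lt_pi h1 (by linarith [Real.pi_pos])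
  have c1 := Real.sin_sq_add_cos_sq (y 1)
  have c2 := Real.sin_sq_add_cos_sq (y 2)
  have c3 := Real.sin_sq_add_cos_sq (y 3)
  have f1 : v 0 * Real.cos (y 1) - v 1 * Real.sin (y 1) = 0 := by
    linear_combination Real.cos (y 2) * e0 + Real.sin (y 2) * e1
      - (v 0 * Real.cos (y 1) - v 1 * Real.sin (y 1)) * c2
  have f2 : v 2 * Real.cos (y 1) = 0 := by
    linear_combination Real.cos (y 2) * e1 - Real.sin (y 2) * e0 - v 2 * Real.cos (y 1) * c2
  have f3 : v 0 * Real.sin (y 1) + v 1 * Real.cos (y 1) = 0 := by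
    linear_combination Real.cos (y 3) * e2 + Real.sin (y 3) * e3
      - (v 0 * Real.sin (y 1) + v 1 * Real.cos (y 1)) * c3
  have f4 : v 3 * Real.sin (y 1) = 0 := by
    linear_combination Real.cos (y 3) * e3 - Real.sin (y 3) * e2 - v 3 * Real.sin (y 1) * c3
  have g0 : v 0 = 0 := by
    linear_combination Real.cos (y 1) * f1 + Real.sin (y 1) * f3 - v 0 * c1
  have g1 : v 1 = 0 := by
    linear_combination Real.cos (y 1) * f3 - Real.sin (y 1) * f1 - v 1 * c1
  have g2 : v 2 = 0 := (mul_eq_zero.1 f2).resolve_right hc.ne'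
  have g3 : v 3 = 0 := (mul_eq_zero.1 f4).resolve_right hs.ne'
  ext i
  fin_cases i
  · exact g0
  · exact g1
  · exact g2
  · exact g3

theorem psi_inv {y : E4} (h1 : 0 < y 1) (h2 : y 1 < Real.pi / 2) :
    (fderiv ℝ psi y).IsInvertible := by
  have hinj : Function.Injective (fderiv ℝ psi y : E4 →ₗ[ℝ] E4) := by
    rw [← LinearMap.ker_eq_bot, LinearMap.ker_eq_bot']
    intro v hv
    refine dpsi_inj h1 h2 (v := v) ?_
    rw [← fderiv_psi]
    exact hv
  refine ⟨(LinearEquiv.ofInjectiveEndo _ hinj).toContinuousLinearEquiv, ?_⟩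
  ext1 v
  rfl

theorem ricci_congr {n : ℕ} {g h : Coord n} {U : Set (Fin n → ℝ)} (hU : IsOpen U)
    (he : ∀ z ∈ U, g z = h z) {z : Fin n → ℝ} (hz : z ∈ U) (j k : Fin n) :
    ricci g j k z = ricci h j k z := by
  have h1 : ∀ a b c : Fin n, ∀ z ∈ U, pd a (fun y => g y b c) z = pd a (fun y => h y b c) z := by
    intro a b c z hz
    refine pd_congr a ?_
    filter_upwards [hU.mem_nhds hz] with y hy
    rw [he y hy]
  have h2 : ∀ a b c : Fin n, ∀ z ∈ U, christoffel g a b c z = christoffel h a b c z := by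
    intro a b c z hz
    unfold christoffel inv
    simp only [h1 _ _ _ z hz, he z hz]
  have h3 : ∀ l a b c : Fin n, pd l (christoffel g a b c) z = pd l (christoffel h a b c) z := by
    intro l a b c
    refine pd_congr l ?_
    filter_upwards [hU.mem_nhds hz] with y hy using h2 a b c y hy
  unfold ricci curv
  simp only [h3, h2 _ _ _ z hz]

theorem ric_sum {G : E4 → Bil E4} {U : Set E4} (hG : IsMetricOn G U) {x : E4} (hx : x ∈ U)
    (v : E4) : ric G x v v = ∑ i, ∑ j, ric G x (eb i) (eb j) * v i * v j := by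
  unfold ric
  have hv : v = ∑ i, v i • (eb i : E4) := H9.sum_eb v
  have h : ∀ k : Fin 4, (riem G x (eb k) v v) k =
      ∑ i, ∑ j, (riem G x (eb k) (eb i) (eb j)) k * v i * v j := by
    intro k
    conv_lhs => rw [hv]
    rw [RF.H58.riem_sum2 hG hx]
    simp only [RF.H58.riem_sum3 hG hx]
    simp only [Fin.sum_univ_four, PiLp.add_apply, PiLp.smul_apply, smul_eq_mul]
    ring
  simp only [h]
  rw [Finset.sum_comm]
  refine Finset.sum_congr rfl fun i _ => ?_
  rw [Finset.sum_comm]
  refine Finset.sum_congr rfl fun j _ => ?_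
  rw [Finset.sum_mul, Finset.sum_mul]

/-- **Module PolA.** -/
theorem polA : PolAStmt := by
  intro w U G hU hw hU1 hG hdiag y hy v
  have hDf : DiffeoStatement := RF.H5.diffeo chrStatement (RF.H5.nat chrStatement)
  set V : Set E4 := (eqE 4) ⁻¹' U with hV
  have hVo : IsOpen V := hU.preimage (eqE 4).continuous
  obtain ⟨hM, -, hric⟩ := hDf (Fin 4) (Fin 4) G psi V (Om (Fin 4)) hG hVo psi_contDiff.contDiffOn
    (fun z _ => psi_ne z) (fun z hz => psi_inv (hU1 _ hz).1 (hU1 _ hz).2)
  have hyV : y ∈ V := hy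
  have hmat : ∀ z ∈ U, mat (pullb G psi) z = dg w z := by
    intro z hz
    set x : E4 := (eqE 4).symm z with hx
    have hxz : eqE 4 x = z := (eqE 4).apply_symm_apply z
    have hxV : x ∈ V := by
      change eqE 4 x ∈ U
      rw [hxz]; exact hz
    have hq : ∀ u : E4, pullb G psi x u u = ∑ i, Real.exp (2 * w i z) * u i ^ 2 := by
      intro u
      rw [pullb_apply, fderiv_psi, hdiag x (by rw [hxz]; exact hz) u, hxz]
    funext i j
    have hpol : pullb G psi x (eb i) (eb j) = (pullb G psi x (eb i + eb j) (eb i + eb j)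
        - pullb G psi x (eb i) (eb i) - pullb G psi x (eb j) (eb j)) / 2 := by
      rw [map_add, map_add, _root_.add_apply, _root_.add_apply,
        hM.symm x hxV (eb j) (eb i)]
      ring
    change pullb G psi x (eb i) (eb j) = dg w z i j
    rw [hpol, hq, hq, hq]
    unfold dg
    fin_cases i <;> fin_cases j <;> simp [Fin.sum_univ_four, eb] <;> ring
  have h1 := hric y hyV v v
  rw [fderiv_psi] at h1
  rw [← h1, ric_sum hM hyV v]
  refine Finset.sum_congr rfl fun i _ => Finset.sum_congr rfl fun j _ => ?_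
  rw [← ricci_mat hM hyV i j, ricci_congr hU hmat hy]

end Pool.Agent.RLim.H36
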